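import Pool.Agent.Work.MP_02669e_wr.All

/-!
# An injective map from `1311_1316` into binary relations preserving all products except six

The definitions are in `Pool.Agent.Work.MP_02669e_wr.Defs`: the atoms `At` (`e` is the identity
atom, `s` is the converse of `r`), their converse `conv` and composition `comp`, the operations
`cnv` and `cmp` on elements (sets of atoms), composition `rc` of binary relations, and the
exceptional pairs `Exc`.
-/

open Pool.WR Pool.WR.At

namespace Pool.Agent.Results.MP_02669e_lc.AllButSixProducts

/-- There are a set `U` and an injective map `h` from the algebra `1311_1316` into the binary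
relations on `U` which preserves zero, meet, the identity and converse, satisfies
`h α ; h β ⊆ h (α ; β)` for all `α`, `β`, and preserves the product `α ; β` of all pairs except
possibly six: `α, β ∈ {c, 1' + c}`, not both equal to `c`, where `c = a` or `c = b`. -/
theorem result :
    ∃ (U : Type) (h : Finset At → Set (U × U)),
      Function.Injective h ∧ h ∅ = ∅ ∧ (∀ α β, h (α ∩ β) = h α ∩ h β) ∧
      h {e} = {p | p.1 = p.2} ∧ (∀ α, h (cnv α) = {p | (p.2, p.1) ∈ h α}) ∧
      (∀ α β, rc (h α) (h β) ⊆ h (cmp α β)) ∧
      (∀ α β, ¬ Exc α β → h (cmp α β) = rc (h α) (h β)) :=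
  q_MAIN

end Pool.Agent.Results.MP_02669e_lc.AllButSixProducts
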